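import Pool.Agent.W448.FF.Stmts

/-!
FF-DEC: decompositions of the partition quantities.
-/

set_option autoImplicit false

namespace Pool.Agent.W101.FF

open Finset Pool.Agent.W448.FF

variable {V : Type} [Fintype V] (G : OG V) (w : V → ℝ) (p : V → Fin 3)

omit [Fintype V] in
lemma nn_nonneg (u v : V) : 0 ≤ nn G u v := by
  unfold nn; split_ifs <;> norm_num

omit [Fintype V] in
lemma nn_le_one (u v : V) : nn G u v ≤ 1 := by
  unfold nn; split_ifs <;> norm_num

omit [Fintype V] in
lemma nn_symm (u v : V) : nn G u v = nn G v u := by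
  unfold nn
  have h : G.adj u v ↔ G.adj v u := by
    unfold OG.adj; exact or_comm
  by_cases h1 : G.adj u v
  · rw [if_pos h1, if_pos (h.1 h1)]
  · rw [if_neg h1, if_neg (fun h2 => h1 (h.2 h2))]

lemma S3 (f : V → ℝ) : ∑ v, f v = (∑ v, if p v = 0 then f v else 0) +
    (∑ v, if p v = 1 then f v else 0) + ∑ v, if p v = 2 then f v else 0 := by
  rw [← sum_add_distrib, ← sum_add_distrib]
  refine sum_congr rfl fun v _ => ?_
  generalize p v = x
  fin_cases x <;> simp

lemma sumP (h : ∑ v, w v = 1) : P w p 0 + P w p 1 + P w p 2 = 1 := by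
  unfold P
  rw [← S3, h]

lemma Hh_eq (v : V) : Hh G w v = nj G w p v 0 + nj G w p v 1 + nj G w p v 2 := by
  unfold Hh nj
  exact S3 p _

lemma mcr_eq (v : V) : mcr G w p v = nj G w p v 0 + nj G w p v 1 + nj G w p v 2 -
    nj G w p v (p v) := by
  rw [← Hh_eq]
  unfold Hh nj mcr
  rw [← sum_sub_distrib]
  refine sum_congr rfl fun u _ => ?_
  split_ifs <;> ring

lemma sum_nj (j k : Fin 3) : (∑ v, if p v = j then w v * nj G w p v k else 0) =
    dM G w (part p j) (part p k) := by
  unfold dM part nj
  rw [sum_filter]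
  refine sum_congr rfl fun v _ => ?_
  split_ifs
  · rw [sum_filter, mul_sum]
    refine sum_congr rfl fun u _ => ?_
    split_ifs
    · ring
    · ring
  · rfl

lemma dM_symm (j k : Fin 3) : dM G w (part p j) (part p k) = dM G w (part p k) (part p j) := by
  unfold dM
  rw [sum_comm]
  refine sum_congr rfl fun v _ => sum_congr rfl fun u _ => ?_
  rw [nn_symm]; ring

lemma mcr_part (c : Fin 3 → ℝ) (j : Fin 3) :
    (∑ v, if p v = j then w v * (c (p v) * mcr G w p v) else 0) =
      c j * (dM G w (part p j) (part p 0) + dM G w (part p j) (part p 1) +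
        dM G w (part p j) (part p 2) - dM G w (part p j) (part p j)) := by
  rw [← sum_nj, ← sum_nj, ← sum_nj, ← sum_nj, ← sum_add_distrib, ← sum_add_distrib,
    ← sum_sub_distrib, mul_sum]
  refine sum_congr rfl fun v _ => ?_
  split_ifs with h
  · rw [mcr_eq, h]; ring
  · ring

lemma mcr_sum (c : Fin 3 → ℝ) : ∑ v, w v * (c (p v) * mcr G w p v) =
    (c 0 + c 1) * dM G w (part p 0) (part p 1) + (c 0 + c 2) * dM G w (part p 0) (part p 2) +
      (c 1 + c 2) * dM G w (part p 1) (part p 2) := by
  rw [S3 p, mcr_part, mcr_part, mcr_part, dM_symm G w p 1 0, dM_symm G w p 2 0, dM_symm G w p 2 1]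
  ring

lemma ein_part (j : Fin 3) : (∑ v, if p v = j then w v * ein G w p v else 0) =
    dI G w (part p j) := by
  unfold dI part ein
  rw [sum_filter]
  refine sum_congr rfl fun v _ => ?_
  split_ifs with h
  · rw [sum_filter, mul_sum]
    refine sum_congr rfl fun u _ => ?_
    rw [h]
    split_ifs
    · ring
    · ring
  · rfl

lemma ep_part (j : Fin 3) : (∑ v, if p v = j then w v * ep w p (p v) else 0) =
    P w p j * ep w p j := by
  unfold P
  rw [sum_mul]
  refine sum_congr rfl fun v _ => ?_
  split_ifs with h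
  · rw [h]
  · ring

theorem dec : S_DEC := by
  intro V _ G w p ⟨hw0, hw1⟩
  have hP := sumP w p hw1
  have hep : ep w p 0 + ep w p 1 + ep w p 2 = 0 := by
    unfold ep; linarith
  have h2 : ∀ v, Hh G w v - 1 / 3 = ep w p (p v) - ein G w p v + mcr G w p v := by
    intro v
    have : Hh G w v = P w p (p v) - ein G w p v + mcr G w p v := by
      unfold Hh P ein mcr
      rw [← sum_sub_distrib, ← sum_add_distrib]
      refine sum_congr rfl fun u _ => ?_
      split_ifs <;> ring
    unfold ep
    linarith
  refine ⟨hep, h2, Hh_eq G w p, ?_, ?_, ?_, ?_, ?_, ?_, ?_⟩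
  · intro v
    unfold D P Hh ein mcr nj
    rw [← sum_add_distrib, ← sum_add_distrib, mul_sum, ← sum_sub_distrib]
    refine sum_congr rfl fun u _ => ?_
    split_ifs <;> ring
  · intro v j
    unfold nj P
    constructor
    · refine sum_nonneg fun u _ => ?_
      split_ifs
      · exact mul_nonneg (hw0 u) (nn_nonneg G v u)
      · exact le_rfl
    · refine sum_le_sum fun u _ => ?_
      split_ifs
      · exact mul_le_of_le_one_right (hw0 u) (nn_le_one G v u)
      · exact le_rfl
  · intro v
    unfold ein mcr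
    constructor
    · refine sum_nonneg fun u _ => ?_
      split_ifs
      · exact mul_nonneg (hw0 u) (by linarith [nn_le_one G v u])
      · exact le_rfl
    · refine sum_nonneg fun u _ => ?_
      split_ifs
      · exact le_rfl
      · exact mul_nonneg (hw0 u) (nn_nonneg G v u)
  · have e1 : ∑ v, w v * (Hh G w v - 1 / 3) = ∑ v, w v * ep w p (p v) - ∑ v, w v * ein G w p v +
        ∑ v, w v * mcr G w p v := by
      rw [← sum_sub_distrib, ← sum_add_distrib]
      refine sum_congr rfl fun v _ => ?_
      rw [h2]; ring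
    have e2 : ∑ v, w v * ep w p (p v) = P w p 0 * ep w p 0 + P w p 1 * ep w p 1 +
        P w p 2 * ep w p 2 := by
      rw [S3 p, ep_part, ep_part, ep_part]
    rw [e1, e2]
    have p0 : P w p 0 = ep w p 0 + 1 / 3 := by unfold ep; ring
    have p1 : P w p 1 = ep w p 1 + 1 / 3 := by unfold ep; ring
    have p2 : P w p 2 = ep w p 2 + 1 / 3 := by unfold ep; ring
    rw [p0, p1, p2]
    linear_combination (1 / 3 : ℝ) * hep
  · rw [S3 p, ein_part, ein_part, ein_part]
  · have := mcr_sum G w p (fun _ => 1)
    simp only [one_mul] at this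
    rw [this]; ring
  · rw [mcr_sum G w p (ep w p)]
    have h0 : ep w p 0 = -(ep w p 1 + ep w p 2) := by linarith
    rw [h0]; ring

end Pool.Agent.W101.FF
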